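import Mathlib

/-!
Volumes around the cube.
-/

namespace Run7.h793.Iso

open MeasureTheory Set Filter Topology
open scoped ENNReal Pointwise

/-- space -/
abbrev E3' := EuclideanSpace ℝ (Fin 3)

/-- boxes -/
def Box (a b : Fin 3 → ℝ) : Set E3' := {x | ∀ i, a i ≤ x i ∧ x i ≤ b i}

theorem Box_eq (a b : Fin 3 → ℝ) :
    Box a b = (MeasurableEquiv.toLp 2 (Fin 3 → ℝ)).symm ⁻¹' (Icc a b) := by
  ext x
  constructor
  · intro h; exact ⟨fun i => (h i).1, fun i => (h i).2⟩
  · intro h i; exact ⟨h.1 i, h.2 i⟩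

theorem Box_meas (a b : Fin 3 → ℝ) : MeasurableSet (Box a b) := by
  rw [Box_eq]
  exact (MeasurableEquiv.toLp 2 (Fin 3 → ℝ)).symm.measurable measurableSet_Icc

theorem Box_vol (a b : Fin 3 → ℝ) : volume (Box a b) = ∏ i, ENNReal.ofReal (b i - a i) := by
  rw [Box_eq, (EuclideanSpace.volume_preserving_symm_measurableEquiv_toLp
    (Fin 3)).measure_preimage_equiv, Real.volume_Icc_pi]

theorem Box_closed (a b : Fin 3 → ℝ) : IsClosed (Box a b) := by
  have : Box a b = ⋂ i, {x : E3' | a i ≤ x i ∧ x i ≤ b i} := by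
    ext x; simp [Box]
  rw [this]
  apply isClosed_iInter
  intro i
  have h1 : IsClosed {x : E3' | a i ≤ x i} := isClosed_le (by fun_prop) (by fun_prop)
  have h2 : IsClosed {x : E3' | x i ≤ b i} := isClosed_le (by fun_prop) (by fun_prop)
  exact h1.inter h2

theorem Box_convex (a b : Fin 3 → ℝ) : Convex ℝ (Box a b) := by
  intro x hx y hy s t hs ht hst i
  simp only [PiLp.add_apply, PiLp.smul_apply, smul_eq_mul]
  have h1 := hx i
  have h2 := hy i
  have e1 := mul_le_mul_of_nonneg_left h1.1 hs
  have e2 := mul_le_mul_of_nonneg_left h2.1 ht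
  have e3 := mul_le_mul_of_nonneg_left h1.2 hs
  have e4 := mul_le_mul_of_nonneg_left h2.2 ht
  have e5 : s * a i + t * a i = a i := by rw [← add_mul, hst, one_mul]
  have e6 : s * b i + t * b i = b i := by rw [← add_mul, hst, one_mul]
  constructor <;> linarith

/-- the cube -/
def Q : Set E3' := Box (fun _ => -1) (fun _ => 1)

theorem mem_Q {x : E3'} : x ∈ Q ↔ ∀ i, |x i| ≤ 1 := by
  simp only [Q, Box, abs_le]
  rfl

theorem Q_norm {x : E3'} (hx : x ∈ Q) : ‖x‖ ≤ 2 := by
  rw [mem_Q] at hx
  have h : ‖x‖ ^ 2 ≤ 3 := by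
    rw [EuclideanSpace.norm_sq_eq, Fin.sum_univ_three]
    simp only [Real.norm_eq_abs, sq_abs]
    have h1 : ∀ i, x i ^ 2 ≤ 1 := by
      intro i
      have := hx i
      rw [← sq_abs]
      nlinarith [abs_nonneg (x i)]
    have := h1 0
    have := h1 1
    have := h1 2
    linarith
  nlinarith [norm_nonneg x]

theorem Q_compact : IsCompact Q := by
  apply Metric.isCompact_of_isClosed_isBounded (Box_closed _ _)
  apply (Metric.isBounded_closedBall (x := (0 : E3')) (r := 2)).subset
  intro x hx
  rw [mem_closedBall_zero_iff]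
  exact Q_norm hx

theorem Q_convex : Convex ℝ Q := Box_convex _ _

theorem Q_int : (interior Q).Nonempty := by
  refine ⟨0, mem_interior.mpr ⟨{x : E3' | ∀ i, |x i| < 1}, ?_, ?_, ?_⟩⟩
  · intro x hx
    rw [mem_Q]
    exact fun i => (hx i).le
  · have : {x : E3' | ∀ i, |x i| < 1} = ⋂ i, {x : E3' | |x i| < 1} := by
      ext x; simp
    rw [this]
    apply isOpen_iInter_of_finite
    intro i
    exact isOpen_lt (by fun_prop) (by fun_prop)
  · intro i; simp

theorem Q_vol : volume Q = 8 := by
  rw [Q, Box_vol, Fin.prod_univ_three]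
  have : ENNReal.ofReal (1 - -1 : ℝ) = 2 := by norm_num
  simp only [this]
  norm_num

/-! ### outer parallel volume -/

theorem up_sub {t : ℝ} (ht : 0 ≤ t) : Q + Metric.closedBall (0 : E3') t
    ⊆ Box (fun _ => -(1 + t)) (fun _ => 1 + t) := by
  rintro z hz
  obtain ⟨x, hx, y, hy, rfl⟩ := mem_add.mp hz
  rw [mem_closedBall_zero_iff] at hy
  rw [mem_Q] at hx
  intro i
  have h1 := abs_le.mp (hx i)
  have h2 : |y i| ≤ t := by
    have := EuclideanSpace.norm_eq y
    have h3 : ‖y i‖ ≤ ‖y‖ := PiLp.norm_apply_le y i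
    rw [Real.norm_eq_abs] at h3
    linarith
  have h3 := abs_le.mp h2
  simp only [PiLp.add_apply]
  constructor <;> linarith

/-- box stretched in one direction -/
def St (i : Fin 3) (t : ℝ) : Set E3' :=
  Box (Function.update (fun _ => -1) i (-(1 + t))) (Function.update (fun _ => 1) i (1 + t))

theorem St_vol (i : Fin 3) {t : ℝ} (ht : 0 ≤ t) :
    volume (St i t) = ENNReal.ofReal (8 * (1 + t)) := by
  rw [St, Box_vol, ← ENNReal.ofReal_prod_of_nonneg]
  · congr 1
    rw [Fin.prod_univ_three]
    fin_cases i <;> simp [Function.update] <;> ring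
  · intro j _
    by_cases h : j = i
    · subst h; simp; linarith
    · simp [h]

theorem Q_sub_St (i : Fin 3) {t : ℝ} (ht : 0 ≤ t) : Q ⊆ St i t := by
  intro x hx j
  rw [mem_Q] at hx
  have h1 := abs_le.mp (hx j)
  by_cases h : j = i
  · subst h
    simp only [Function.update_self]
    constructor <;> linarith
  · simp only [ne_eq, h, not_false_eq_true, Function.update_of_ne]
    exact h1

theorem St_sub (i : Fin 3) {t : ℝ} (ht : 0 ≤ t) : St i t ⊆ Q + Metric.closedBall (0 : E3') t := by
  intro x hx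
  have hxi : |x i| ≤ 1 + t := by
    have := hx i
    simp only [Function.update_self] at this
    exact abs_le.mpr this
  have hxj : ∀ j, j ≠ i → |x j| ≤ 1 := by
    intro j hj
    have := hx j
    simp only [ne_eq, hj, not_false_eq_true, Function.update_of_ne] at this
    exact abs_le.mpr this
  by_cases h : |x i| ≤ 1
  · refine mem_add.mpr ⟨x, ?_, 0, by simpa using ht, by simp⟩
    rw [mem_Q]
    intro j
    by_cases hj : j = i
    · rw [hj]; exact h
    · exact hxj j hj
  · push Not at h
    obtain ⟨σ, hσ, hσx⟩ : ∃ σ : ℝ, |σ| = 1 ∧ σ * x i = |x i| := by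
      rcases le_total 0 (x i) with h | h
      · exact ⟨1, by norm_num, by rw [one_mul, abs_of_nonneg h]⟩
      · exact ⟨-1, by norm_num, by rw [neg_one_mul, abs_of_nonpos h]⟩
    have hσ2 : σ ^ 2 = 1 := by rw [← sq_abs, hσ]; norm_num
    refine mem_add.mpr ⟨x - EuclideanSpace.single i (x i - σ), ?_,
      EuclideanSpace.single i (x i - σ), ?_, by abel⟩
    · rw [mem_Q]
      intro j
      by_cases hj : j = i
      · subst hj
        simp [hσ]
      · simp [hj]
        exact hxj j hj
    · rw [mem_closedBall_zero_iff, PiLp.norm_single, Real.norm_eq_abs]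
      have e : |x i - σ| = |x i| - 1 := by
        have e1 : |σ * (x i - σ)| = |x i - σ| := by rw [abs_mul, hσ, one_mul]
        rw [← e1, mul_sub, hσx, ← sq, hσ2, abs_of_nonneg (by linarith)]
      rw [e]; linarith

theorem low_vol {t : ℝ} (ht : 0 ≤ t) :
    ENNReal.ofReal (8 + 24 * t) ≤ volume (Q + Metric.closedBall (0 : E3') t) := by
  have hd : ∀ i, volume (St i t \ Q) = ENNReal.ofReal (8 * t) := by
    intro i
    rw [measure_sdiff (Q_sub_St i ht) (Box_meas _ _).nullMeasurableSet (by rw [Q_vol]; norm_num),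
      St_vol i ht, Q_vol]
    have : (8 : ℝ≥0∞) = ENNReal.ofReal 8 := by norm_num
    rw [this, ← ENNReal.ofReal_sub _ (by norm_num)]
    congr 1; ring
  have hsub : Q ∪ ⋃ i, (St i t \ Q) ⊆ Q + Metric.closedBall (0 : E3') t := by
    apply union_subset
    · exact (Q_sub_St 0 ht).trans (St_sub 0 ht)
    · apply iUnion_subset
      intro i
      exact sdiff_subset.trans (St_sub i ht)
  have hpd : Pairwise (Function.onFun Disjoint (fun i : Fin 3 => St i t \ Q)) := by
    intro i j hij
    rw [Function.onFun, disjoint_left]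
    rintro x ⟨h1, h2⟩ ⟨h3, _⟩
    apply h2
    rw [mem_Q]
    intro k
    by_cases hk : k = i
    · have hkj : k ≠ j := by rw [hk]; exact hij
      have := h3 k
      simp only [ne_eq, hkj, not_false_eq_true, Function.update_of_ne] at this
      exact abs_le.mpr this
    · have := h1 k
      simp only [ne_eq, hk, not_false_eq_true, Function.update_of_ne] at this
      exact abs_le.mpr this
  have hdj : Disjoint Q (⋃ i, (St i t \ Q)) := by
    rw [disjoint_iUnion_right]
    intro i
    exact disjoint_sdiff_right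
  have hm : ∀ i, MeasurableSet (St i t \ Q) := fun i => (Box_meas _ _).diff (Box_meas _ _)
  refine le_trans (le_of_eq ?_) (measure_mono hsub)
  rw [measure_union hdj (MeasurableSet.iUnion hm), measure_iUnion hpd hm, tsum_fintype,
    Fin.sum_univ_three, hd, hd, hd, Q_vol]
  have : (8 : ℝ≥0∞) = ENNReal.ofReal 8 := by norm_num
  rw [this, ← ENNReal.ofReal_add (by positivity) (by positivity),
    ← ENNReal.ofReal_add (by positivity) (by positivity),
    ← ENNReal.ofReal_add (by positivity) (by positivity)]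
  congr 1; ring

theorem up_vol {t : ℝ} (ht : 0 ≤ t) :
    volume (Q + Metric.closedBall (0 : E3') t) ≤ ENNReal.ofReal ((2 + 2 * t) ^ 3) := by
  refine (measure_mono (up_sub ht)).trans (le_of_eq ?_)
  rw [Box_vol, ← ENNReal.ofReal_prod_of_nonneg]
  · congr 1
    rw [Fin.prod_univ_three]
    ring
  · intro i _; linarith

theorem S_lim : Tendsto (fun t : ℝ =>
        ((volume (Q + Metric.closedBall (0 : E3') t)).toReal
          - (volume Q).toReal) / (2 * t)) (𝓝[>] 0) (𝓝 12) := by
  have h1 : Tendsto (fun t : ℝ => 12 + 12 * t + 4 * t ^ 2) (𝓝[>] 0) (𝓝 12) := by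
    have h1 : Continuous (fun t : ℝ => 12 + 12 * t + 4 * t ^ 2) := by fun_prop
    have h2 := h1.tendsto 0
    simp only [mul_zero, add_zero] at h2
    norm_num at h2
    exact h2.mono_left nhdsWithin_le_nhds
  refine tendsto_of_tendsto_of_tendsto_of_le_of_le' tendsto_const_nhds h1 ?_ ?_
  · filter_upwards [self_mem_nhdsWithin] with t ht
    have ht' : (0 : ℝ) < t := ht
    have h := low_vol ht'.le
    have hfin : volume (Q + Metric.closedBall (0 : E3') t) ≠ ⊤ :=
      ((up_vol ht'.le).trans_lt ENNReal.ofReal_lt_top).ne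
    have h2 := ENNReal.toReal_mono hfin h
    rw [ENNReal.toReal_ofReal (by positivity)] at h2
    rw [Q_vol, le_div_iff₀ (by positivity)]
    simp only [ENNReal.toReal_ofNat]
    linarith
  · filter_upwards [self_mem_nhdsWithin] with t ht
    have ht' : (0 : ℝ) < t := ht
    have h := up_vol ht'.le
    have h2 := ENNReal.toReal_mono ENNReal.ofReal_ne_top h
    rw [ENNReal.toReal_ofReal (by positivity)] at h2
    rw [Q_vol, div_le_iff₀ (by positivity)]
    simp only [ENNReal.toReal_ofNat]
    nlinarith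

end Run7.h793.Iso
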