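import Mathlib

/-!
Fibres of compact convex sets in `ℝ × ℝ²`.
-/

namespace Run7.h793.Iso

open MeasureTheory Set
open scoped ENNReal Pointwise

/-- the plane -/
abbrev P2 := Fin 2 → ℝ

/-- shift in the first coordinate by `[0,1]` -/
def sh (G : Set (ℝ × P2)) : Set (ℝ × P2) := {p | ∃ s ∈ Icc (0 : ℝ) 1, (p.1 - s, p.2) ∈ G}

theorem sh_compact {G : Set (ℝ × P2)} (hG : IsCompact G) : IsCompact (sh G) := by
  have : sh G = (fun q : ℝ × (ℝ × P2) => (q.2.1 + q.1, q.2.2)) '' (Icc (0 : ℝ) 1 ×ˢ G) := by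
    ext p
    constructor
    · rintro ⟨s, hs, hp⟩
      exact ⟨(s, (p.1 - s, p.2)), ⟨hs, hp⟩, by ext <;> simp⟩
    · rintro ⟨⟨s, q⟩, ⟨hs, hq⟩, rfl⟩
      exact ⟨s, hs, by simpa using hq⟩
  rw [this]
  exact (isCompact_Icc.prod hG).image (by fun_prop)

theorem vol_line {F : Set ℝ} (hF : IsCompact F) (hc : Convex ℝ F) (hne : F.Nonempty) :
    volume {h : ℝ | ∃ s ∈ Icc (0 : ℝ) 1, h - s ∈ F} = volume F + 1 := by
  have hcon : IsConnected F := ⟨hne, hc.isPreconnected⟩
  obtain ⟨m, M, hmM⟩ : ∃ m M, F = Icc m M := ⟨_, _, eq_Icc_of_connected_compact hcon hF⟩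
  have hle : m ≤ M := by
    rw [hmM] at hne; exact nonempty_Icc.mp hne
  have : {h : ℝ | ∃ s ∈ Icc (0 : ℝ) 1, h - s ∈ F} = Icc m (M + 1) := by
    ext h
    rw [hmM]
    constructor
    · rintro ⟨s, hs, h1⟩
      exact ⟨by linarith [hs.1, h1.1], by linarith [hs.2, h1.2]⟩
    · rintro ⟨h1, h2⟩
      by_cases h3 : h ≤ M
      · exact ⟨0, ⟨le_rfl, zero_le_one⟩, by simpa using ⟨h1, h3⟩⟩
      · push Not at h3
        exact ⟨h - M, ⟨by linarith, by linarith⟩, by
          constructor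
          · linarith
          · linarith⟩
  rw [this, hmM, Real.volume_Icc, Real.volume_Icc, ← ENNReal.ofReal_one,
    ← ENNReal.ofReal_add (by linarith) zero_le_one]
  congr 1; ring

theorem vol_sh {G : Set (ℝ × P2)} (hG : IsCompact G) (hc : Convex ℝ G) :
    volume (sh G) = volume G + volume (Prod.snd '' G) := by
  have hP : IsCompact (Prod.snd '' G) := hG.image continuous_snd
  rw [Measure.volume_eq_prod, Measure.prod_apply_symm (sh_compact hG).measurableSet,
    Measure.prod_apply_symm hG.measurableSet, ← lintegral_indicator_one hP.measurableSet,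
    ← lintegral_add_right _ (measurable_one.indicator hP.measurableSet)]
  congr 1
  ext y
  have hFc : IsCompact ((fun x : ℝ => (x, y)) ⁻¹' G) := by
    have hcl : IsClosed ((fun x : ℝ => (x, y)) ⁻¹' G) := hG.isClosed.preimage (by fun_prop)
    refine (hG.image continuous_fst).of_isClosed_subset hcl ?_
    intro x hx
    exact ⟨(x, y), hx, rfl⟩
  have hFx : Convex ℝ ((fun x : ℝ => (x, y)) ⁻¹' G) := by
    intro a ha b hb s t hs ht hst
    have := hc ha hb hs ht hst
    have e : s • ((a, y) : ℝ × P2) + t • (b, y) = (s • a + t • b, y) := by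
      ext
      · rfl
      · simp only [Prod.snd_add, Prod.smul_snd, Pi.add_apply, Pi.smul_apply, smul_eq_mul]
        rw [← add_mul, hst, one_mul]
    rw [e] at this
    exact this
  by_cases hy : y ∈ Prod.snd '' G
  · rw [indicator_of_mem hy]
    obtain ⟨⟨x, y'⟩, hx, rfl⟩ := hy
    exact vol_line hFc hFx ⟨x, hx⟩
  · rw [indicator_of_notMem hy]
    have h1 : (fun x : ℝ => (x, y)) ⁻¹' G = ∅ := by
      ext x
      simp only [mem_preimage, mem_empty_iff_false, iff_false]
      intro hx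
      exact hy ⟨(x, y), hx, rfl⟩
    have h2 : (fun x : ℝ => (x, y)) ⁻¹' (sh G) = ∅ := by
      ext x
      simp only [mem_preimage, mem_empty_iff_false, iff_false]
      rintro ⟨s, hs, hx⟩
      exact hy ⟨_, hx, rfl⟩
    rw [h1, h2]; simp

end Run7.h793.Iso
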