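import Mathlib

/-!
Discs inside the projections of the cube.
-/

namespace Run7.h793.Iso

theorem ineq2 (x y z : ℝ) (hx : 0 ≤ x) (hy : 0 ≤ y) (h1 : x ^ 2 + y ^ 2 + z ^ 2 = 1) :
    7 / 10 * (x + y + z) * (x ^ 2 + y ^ 2) ≤ (x + y) ^ 2 := by
  obtain ⟨q, hq⟩ : ∃ q, q = x ^ 2 + y ^ 2 := ⟨_, rfl⟩
  obtain ⟨p, hp⟩ : ∃ p, p = x + y := ⟨_, rfl⟩
  have hq0 : 0 ≤ q := by rw [hq]; positivity
  have h3 : q ≤ p ^ 2 := by rw [hp, hq]; nlinarith [mul_nonneg hx hy]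
  rw [← hq, ← hp]
  rw [← hq] at h1
  have hz1 : 7 / 10 * z ≤ 1 / 2 * (1 - q) + 49 / 200 := by
    nlinarith [sq_nonneg (z - 7 / 10)]
  have h2 : q * (7 / 10 * z) ≤ q * (1 / 2 * (1 - q) + 49 / 200) :=
    mul_le_mul_of_nonneg_left hz1 hq0
  have h4 : 0 ≤ 51 / 200 * p ^ 2 - 7 / 10 * p * q + 1 / 2 * q ^ 2 := by
    nlinarith [sq_nonneg (p - (70 / 51) * q), sq_nonneg q]
  nlinarith

/-- a sign -/
theorem exists_sign (a : ℝ) : ∃ σ : ℝ, σ ^ 2 = 1 ∧ σ * a = |a| := by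
  rcases le_total 0 a with h | h
  · exact ⟨1, by norm_num, by rw [one_mul, abs_of_nonneg h]⟩
  · exact ⟨-1, by norm_num, by rw [neg_one_mul, abs_of_nonpos h]⟩

theorem pair_pt (a b c v w d : ℝ) (h1 : a ^ 2 + b ^ 2 + c ^ 2 = 1)
    (hv : v ^ 2 + w ^ 2 + d ^ 2 ≤ 7 / 10 * (|a| + |b| + |c|)) :
    ∃ s : ℝ, |v + s * a| ≤ 1 ∧ |w + s * b| ≤ 1 := by
  obtain ⟨σ, hσ, hσa⟩ := exists_sign a
  obtain ⟨τ, hτ, hτb⟩ := exists_sign b
  have ha := abs_nonneg a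
  have hb := abs_nonneg b
  rcases (add_nonneg ha hb).eq_or_lt with h0 | h0
  · have ha0 : |a| = 0 := by linarith
    have hb0 : |b| = 0 := by linarith
    rw [abs_eq_zero] at ha0 hb0
    have hc : |c| = 1 := by
      rw [ha0, hb0] at h1
      have : |c| ^ 2 = 1 := by rw [sq_abs]; linarith
      nlinarith [abs_nonneg c]
    refine ⟨0, ?_, ?_⟩
    · rw [ha0, hb0, hc] at hv
      simp only [zero_mul, add_zero]
      apply abs_le_of_sq_le_sq _ zero_le_one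
      simp at hv
      nlinarith [sq_nonneg w, sq_nonneg d]
    · rw [ha0, hb0, hc] at hv
      simp only [zero_mul, add_zero]
      apply abs_le_of_sq_le_sq _ zero_le_one
      simp at hv
      nlinarith [sq_nonneg v, sq_nonneg d]
  · have key : (v * b - w * a) ^ 2 ≤ (|a| + |b|) ^ 2 := by
      have e1 : (v * b - w * a) ^ 2 ≤ (v ^ 2 + w ^ 2) * (a ^ 2 + b ^ 2) := by
        nlinarith [sq_nonneg (v * a + w * b)]
      have e2 : (v ^ 2 + w ^ 2) * (a ^ 2 + b ^ 2)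
          ≤ 7 / 10 * (|a| + |b| + |c|) * (a ^ 2 + b ^ 2) := by
        apply mul_le_mul_of_nonneg_right _ (by positivity)
        nlinarith [sq_nonneg d]
      have e3 := ineq2 |a| |b| |c| ha hb (by simp only [sq_abs]; exact h1)
      simp only [sq_abs] at e3
      linarith
    have key' : |v * b - w * a| ≤ |a| + |b| := abs_le_of_sq_le_sq key h0.le
    have hσ1 : |σ| = 1 := by
      have : |σ| ^ 2 = 1 := by rw [sq_abs]; exact hσ
      nlinarith [abs_nonneg σ]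
    have hτ1 : |τ| = 1 := by
      have : |τ| ^ 2 = 1 := by rw [sq_abs]; exact hτ
      nlinarith [abs_nonneg τ]
    refine ⟨-(v * σ + w * τ) / (|a| + |b|), ?_, ?_⟩
    · have e : v + -(v * σ + w * τ) / (|a| + |b|) * a = τ * (v * b - w * a) / (|a| + |b|) := by
        field_simp
        rw [← hσa, ← hτb]
        ring
      rw [e, abs_div, abs_mul, hτ1, one_mul, abs_of_pos h0]
      exact (div_le_one h0).mpr key'
    · have e : w + -(v * σ + w * τ) / (|a| + |b|) * b = -(σ * (v * b - w * a)) / (|a| + |b|) := by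
        field_simp
        rw [← hσa, ← hτb]
        ring
      rw [e, abs_div, abs_neg, abs_mul, hσ1, one_mul, abs_of_pos h0]
      exact (div_le_one h0).mpr key'

theorem conv_abs (v a : ℝ) {p q r : ℝ} (hp : |v + p * a| ≤ 1) (hr : |v + r * a| ≤ 1)
    (h1 : p ≤ q) (h2 : q ≤ r) : |v + q * a| ≤ 1 := by
  rw [abs_le] at *
  rcases le_total 0 a with h | h
  · constructor <;> nlinarith
  · constructor <;> nlinarith

theorem med (a b c v w d p q r : ℝ) (hp : |v + p * a| ≤ 1 ∧ |w + p * b| ≤ 1)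
    (hq : |w + q * b| ≤ 1 ∧ |d + q * c| ≤ 1) (hr : |v + r * a| ≤ 1 ∧ |d + r * c| ≤ 1) :
    ∃ s : ℝ, |v + s * a| ≤ 1 ∧ |w + s * b| ≤ 1 ∧ |d + s * c| ≤ 1 := by
  rcases le_total p q with h1 | h1 <;> rcases le_total q r with h2 | h2 <;>
    rcases le_total p r with h3 | h3
  · exact ⟨q, conv_abs v a hp.1 hr.1 h1 h2, hq.1, hq.2⟩
  · exact ⟨q, conv_abs v a hp.1 hr.1 h1 h2, hq.1, hq.2⟩
  · exact ⟨r, hr.1, conv_abs w b hp.2 hq.1 h3 h2, hr.2⟩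
  · exact ⟨p, hp.1, hp.2, conv_abs d c hr.2 hq.2 h3 h1⟩
  · exact ⟨p, hp.1, hp.2, conv_abs d c hq.2 hr.2 h1 h3⟩
  · exact ⟨r, hr.1, conv_abs w b hq.1 hp.2 h2 h3, hr.2⟩
  · exact ⟨q, conv_abs v a hr.1 hp.1 h2 h1, hq.1, hq.2⟩
  · exact ⟨q, conv_abs v a hr.1 hp.1 h2 h1, hq.1, hq.2⟩

theorem inr (u v : Fin 3 → ℝ) (hu : ∑ i, u i ^ 2 = 1)
    (hv : ∑ i, v i ^ 2 ≤ 7 / 10 * ∑ i, |u i|) : ∃ s : ℝ, ∀ i, |v i + s * u i| ≤ 1 := by
  simp only [Fin.sum_univ_three] at hu hv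
  obtain ⟨p, hp⟩ := pair_pt (u 0) (u 1) (u 2) (v 0) (v 1) (v 2) hu hv
  obtain ⟨q, hq⟩ := pair_pt (u 1) (u 2) (u 0) (v 1) (v 2) (v 0) (by linarith) (by linarith)
  obtain ⟨r, hr⟩ := pair_pt (u 0) (u 2) (u 1) (v 0) (v 2) (v 1) (by linarith) (by linarith)
  obtain ⟨s, h0, h1, h2⟩ := med _ _ _ _ _ _ p q r hp hq hr
  refine ⟨s, fun i => ?_⟩
  fin_cases i
  · exact h0
  · exact h1
  · exact h2

end Run7.h793.Iso
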