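import Pool.Agent.Run7.h793.Iso.Slice

/-!
Bounds for the Steiner limit of a planar convex set.
-/

namespace Run7.h793.Iso

open MeasureTheory Set Filter Topology
open scoped ENNReal Pointwise

theorem toReal_le {P : Set P2} (hP : IsCompact P) (hc : Convex ℝ P) {ρ t : ℝ} (hρ : 0 < ρ)
    (ht : 0 < t) (hD : Dc ρ ⊆ P) :
    (volume (Ns P t)).toReal
      ≤ (2 * t + Real.pi * t ^ 2 / ρ + (4 / 3) * t ^ 3 / ρ ^ 2) * (volume P).toReal := by
  have h := volN_le hP hc hρ ht.le hD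
  rw [int_val t ρ ht hρ] at h
  have hn : (0 : ℝ) ≤ 2 * t + Real.pi * t ^ 2 / ρ + (4 / 3) * t ^ 3 / ρ ^ 2 := by positivity
  have hfin : ENNReal.ofReal (2 * t + Real.pi * t ^ 2 / ρ + (4 / 3) * t ^ 3 / ρ ^ 2)
      * volume P ≠ ⊤ := ENNReal.mul_ne_top ENNReal.ofReal_ne_top hP.measure_lt_top.ne
  have h2 := ENNReal.toReal_mono hfin h
  rwa [ENNReal.toReal_mul, ENNReal.toReal_ofReal hn] at h2

theorem le_toReal {P : Set P2} (hP : IsCompact P) {R t : ℝ} (hR : 0 < R)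
    (ht : 0 < t) (hD : P ⊆ Dc R) :
    (2 * t + Real.pi * t ^ 2 / R + (4 / 3) * t ^ 3 / R ^ 2) * (volume P).toReal
      ≤ (volume (Ns P t)).toReal := by
  have h := le_volN hP hR ht.le hD
  rw [int_val t R ht hR] at h
  have hn : (0 : ℝ) ≤ 2 * t + Real.pi * t ^ 2 / R + (4 / 3) * t ^ 3 / R ^ 2 := by positivity
  have hfin : volume (Ns P t) ≠ ⊤ := (Ns_compact hP t).measure_lt_top.ne
  have h2 := ENNReal.toReal_mono hfin h
  rwa [ENNReal.toReal_mul, ENNReal.toReal_ofReal hn] at h2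

theorem lim_bounds {P : Set P2} (hP : IsCompact P) (hc : Convex ℝ P) {ρ R L : ℝ} (hρ : 0 < ρ)
    (hR : 0 < R) (hD : Dc ρ ⊆ P) (hD' : P ⊆ Dc R)
    (hL : Tendsto (fun t : ℝ => ((volume (Ns P t)).toReal - 2 * t * (volume P).toReal)
      / (Real.pi * t ^ 2)) (𝓝[>] 0) (𝓝 L)) :
    (volume P).toReal / R ≤ L ∧ L ≤ (volume P).toReal / ρ := by
  obtain ⟨a, ha⟩ : ∃ a, a = (volume P).toReal := ⟨_, rfl⟩
  have hlin : ∀ r : ℝ, Tendsto (fun t : ℝ => a / r + (4 * a / (3 * Real.pi * r ^ 2)) * t)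
      (𝓝[>] 0) (𝓝 (a / r)) := by
    intro r
    have h1 : Continuous (fun t : ℝ => a / r + (4 * a / (3 * Real.pi * r ^ 2)) * t) := by
      fun_prop
    have h2 := h1.tendsto 0
    simp only [mul_zero, add_zero] at h2
    exact h2.mono_left nhdsWithin_le_nhds
  have hpi := Real.pi_pos
  rw [← ha]
  constructor
  · refine le_of_tendsto_of_tendsto (hlin R) hL ?_
    filter_upwards [self_mem_nhdsWithin] with t ht
    have ht' : (0 : ℝ) < t := ht
    have h := le_toReal hP hR ht' hD'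
    rw [le_div_iff₀ (by positivity)]
    rw [← ha] at h ⊢
    have e : (a / R + 4 * a / (3 * Real.pi * R ^ 2) * t) * (Real.pi * t ^ 2)
      = (2 * t + Real.pi * t ^ 2 / R + (4 / 3) * t ^ 3 / R ^ 2) * a - 2 * t * a := by
      field_simp
      ring
    rw [e]
    linarith
  · refine le_of_tendsto_of_tendsto hL (hlin ρ) ?_
    filter_upwards [self_mem_nhdsWithin] with t ht
    have ht' : (0 : ℝ) < t := ht
    have h := toReal_le hP hc hρ ht' hD
    rw [div_le_iff₀ (by positivity)]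
    rw [← ha] at h ⊢
    have e : (a / ρ + 4 * a / (3 * Real.pi * ρ ^ 2) * t) * (Real.pi * t ^ 2)
      = (2 * t + Real.pi * t ^ 2 / ρ + (4 / 3) * t ^ 3 / ρ ^ 2) * a - 2 * t * a := by
      field_simp
      ring
    rw [e]
    linarith

theorem lim_bound {P : Set P2} (hP : IsCompact P) (hc : Convex ℝ P) {ρ R L : ℝ} (hρ : 0 < ρ)
    (hR : 0 < R) (hD : Dc ρ ⊆ P) (hD' : P ⊆ Dc R) (ha : 0 < (volume P).toReal)
    (hL : Tendsto (fun t : ℝ => ((volume (Ns P t)).toReal - 2 * t * (volume P).toReal)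
      / (Real.pi * t ^ 2)) (𝓝[>] 0) (𝓝 L)) :
    Real.pi * ρ ^ 2 / (volume P).toReal ≤ Real.pi * (volume P).toReal / L ^ 2 := by
  obtain ⟨h1, h2⟩ := lim_bounds hP hc hρ hR hD hD' hL
  have hL0 : 0 < L := lt_of_lt_of_le (by positivity) h1
  have hpi := Real.pi_pos
  rw [div_le_div_iff₀ ha (by positivity)]
  rw [le_div_iff₀ hρ] at h2
  have : (L * ρ) ^ 2 ≤ (volume P).toReal ^ 2 := by gcongr
  nlinarith

end Run7.h793.Iso
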