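import Pool.Agent.Run7.h793.Iso.Cube

/-!
Volume of the cube plus a segment.
-/

namespace Run7.h793.Iso

open MeasureTheory Set Filter Topology
open scoped ENNReal Pointwise

/-- the three skew prisms -/
def T (u : E3') (i : Fin 3) (σ : ℝ) : Set E3' :=
  {x | ∃ w ∈ Icc (0 : ℝ) 1, x i - w * u i = σ ∧ ∀ j, |x j - w * u j| ≤ 1}

/-- the coordinate functional -/
def cf (i : Fin 3) : Module.Dual ℝ E3' where
  toFun x := x i
  map_add' _ _ := rfl
  map_smul' _ _ := rfl

theorem T_vol (u : E3') (i : Fin 3) (σ : ℝ) :
    volume (T u i σ) ≤ ENNReal.ofReal (4 * |u i|) := by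
  have hsub : T u i σ ⊆ (fun y => EuclideanSpace.single i σ + y) ''
      ((LinearMap.transvection (cf i) (u - EuclideanSpace.single i 1)) ''
        (Box (Function.update (fun _ => -1) i 0) (fun _ => 1))) := by
    rintro x ⟨w, hw, hi, hj⟩
    refine ⟨x - EuclideanSpace.single i σ, ⟨x - w • u - EuclideanSpace.single i (σ - w),
      ?_, ?_⟩, by simp⟩
    · intro j
      by_cases h : j = i
      · subst h
        have e : (x - w • u - EuclideanSpace.single j (σ - w)) j = w := by
          simp only [PiLp.sub_apply, PiLp.smul_apply, smul_eq_mul, PiLp.single_apply,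
            if_true]
          linarith
        rw [e]
        simpa using hw
      · have e : (x - w • u - EuclideanSpace.single i (σ - w)) j = x j - w * u j := by
          simp [h]
        rw [e]
        simp only [ne_eq, h, not_false_eq_true, Function.update_of_ne]
        exact abs_le.mp (hj j)
    · simp only [LinearMap.transvection]
      have e : cf i (x - w • u - EuclideanSpace.single i (σ - w)) = w := by
        change (x - w • u - EuclideanSpace.single i (σ - w)) i = w
        simp only [PiLp.sub_apply, PiLp.smul_apply, smul_eq_mul, PiLp.single_apply,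
            if_true]
        linarith
      change (x - w • u - EuclideanSpace.single i (σ - w))
        + cf i (x - w • u - EuclideanSpace.single i (σ - w)) • (u - EuclideanSpace.single i 1) = _
      rw [e]
      ext j
      by_cases h : j = i
      · subst h
        simp
        linarith
      · simp [h]
  refine (measure_mono hsub).trans ?_
  rw [image_add_left, measure_preimage_add, Measure.addHaar_image_linearMap,
    LinearMap.transvection.det, Box_vol]
  have e1 : 1 + cf i (u - EuclideanSpace.single i 1) = u i := by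
    change 1 + (u - EuclideanSpace.single i (1 : ℝ) : E3') i = u i
    simp
  have e2 : ∏ j : Fin 3, ENNReal.ofReal ((1 : ℝ)
      - Function.update (fun _ => (-1 : ℝ)) i 0 j) = ENNReal.ofReal 4 := by
    rw [← ENNReal.ofReal_prod_of_nonneg]
    · congr 1
      rw [Fin.prod_univ_three]
      fin_cases i <;> simp [Function.update] <;> norm_num
    · intro j _
      by_cases h : j = i
      · subst h; simp
      · simp [h]
  rw [e1, e2, ← ENNReal.ofReal_mul (abs_nonneg _), mul_comm]

theorem one_dim (x v s' : ℝ) (hs : 0 ≤ s') (h : |x - s' * v| ≤ 1) (σ : ℝ)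
    (hσ : σ = 1 ∨ σ = -1) (hv : σ * v = |v|) :
    ∃ w ∈ Icc (0 : ℝ) s', (∀ r ∈ Icc w s', |x - r * v| ≤ 1) ∧ (w = 0 ∨ x - w * v = σ) := by
  by_cases h0 : |x| ≤ 1
  · refine ⟨0, ⟨le_rfl, hs⟩, ?_, Or.inl rfl⟩
    rintro r ⟨h1, h2⟩
    rw [abs_le] at *
    rcases le_total 0 v with h3 | h3
    · constructor <;> nlinarith
    · constructor <;> nlinarith
  · push Not at h0
    have hvne : 0 < |v| := by
      rcases (abs_nonneg v).eq_or_lt with h1 | h1
      · exfalso
        have hv0 : v = 0 := abs_eq_zero.mp h1.symm
        rw [hv0] at h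
        simp only [mul_zero, sub_zero] at h
        linarith
      · exact h1
    have hsg : x * σ = |x| := by
      rcases hσ with h1 | h1
      · rw [h1, one_mul] at hv
        rw [h1, mul_one]
        have hv' : 0 ≤ v := by rw [hv]; exact abs_nonneg v
        have h2 := abs_le.mp h
        by_contra hx
        have hx' : x < 0 := by
          by_contra hx2
          push Not at hx2
          exact hx (abs_of_nonneg hx2).symm
        rw [abs_of_neg hx'] at h0
        nlinarith [mul_nonneg hs hv']
      · rw [h1, neg_one_mul] at hv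
        rw [h1]
        have hv' : v ≤ 0 := by
          have := abs_nonneg v
          linarith
        have h2 := abs_le.mp h
        by_contra hx
        have hx' : 0 < x := by
          by_contra hx2
          push Not at hx2
          apply hx
          rw [abs_of_nonpos hx2]; ring
        rw [abs_of_pos hx'] at h0
        nlinarith [mul_nonneg hs (neg_nonneg.mpr hv')]
    have hσ2 : σ * σ = 1 := by rcases hσ with h1 | h1 <;> rw [h1] <;> norm_num
    have hxe : x = σ * |x| := by
      rw [← hsg]
      linear_combination (-x) * hσ2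
    have hve : v = σ * |v| := by
      rw [← hv]
      linear_combination (-v) * hσ2
    have hσa : |σ| = 1 := by rcases hσ with h1 | h1 <;> rw [h1] <;> norm_num
    have habs : ∀ r, |x - r * v| = |(|x| - r * |v|)| := by
      intro r
      have e : x - r * v = σ * (|x| - r * |v|) := by
        linear_combination hxe - r * hve
      rw [e, abs_mul, hσa, one_mul]
    rw [habs] at h
    have h2 := abs_le.mp h
    have e1 : (|x| - 1) / |v| * |v| = |x| - 1 := by field_simp
    refine ⟨(|x| - 1) / |v|, ⟨div_nonneg (by linarith) (abs_nonneg v), ?_⟩, ?_, Or.inr ?_⟩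
    · rw [div_le_iff₀ hvne]; linarith
    · rintro r ⟨h3, h4⟩
      rw [div_le_iff₀ hvne] at h3
      rw [habs, abs_le]
      have h5 : r * |v| ≤ s' * |v| := mul_le_mul_of_nonneg_right h4 (abs_nonneg v)
      constructor <;> linarith
    · have e : x - (|x| - 1) / |v| * v = σ * (|x| - (|x| - 1) / |v| * |v|) := by
        linear_combination hxe - (|x| - 1) / |v| * hve
      rw [e, e1]; ring

theorem exists_sign' (a : ℝ) : ∃ σ : ℝ, (σ = 1 ∨ σ = -1) ∧ σ * a = |a| := by
  rcases le_total 0 a with h | h
  · exact ⟨1, Or.inl rfl, by rw [one_mul, abs_of_nonneg h]⟩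
  · exact ⟨-1, Or.inr rfl, by rw [neg_one_mul, abs_of_nonpos h]⟩

theorem seg_sub (u : E3') : ∃ σ : Fin 3 → ℝ,
    Q + segment ℝ (0 : E3') u ⊆ Q ∪ ⋃ i, T u i (σ i) := by
  choose σ hσ hσu using fun i => exists_sign' (u i)
  refine ⟨σ, ?_⟩
  intro x hx
  obtain ⟨y, hy, z, hz, rfl⟩ := mem_add.mp hx
  rw [segment_eq_image] at hz
  obtain ⟨s, hs, rfl⟩ := hz
  simp only [smul_zero, zero_add]
  rw [mem_Q] at hy
  obtain ⟨x, hx⟩ : ∃ x, x = y + s • u := ⟨_, rfl⟩
  rw [← hx]
  have hxy : ∀ i, |x i - s * u i| ≤ 1 := by
    intro i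
    rw [hx]
    simpa using hy i
  choose w hw hw1 hw2 using fun i => one_dim (x i) (u i) s hs.1 (hxy i) (σ i) (hσ i) (hσu i)
  obtain ⟨i, hi⟩ := Finite.exists_max w
  rcases hw2 i with h0 | h0
  · left
    rw [mem_Q]
    intro j
    have h1 : w j ≤ 0 := by rw [← h0]; exact hi j
    have := hw1 j 0 ⟨h1, hs.1⟩
    simpa using this
  · right
    refine mem_iUnion.mpr ⟨i, w i, ⟨(hw i).1, (hw i).2.trans hs.2⟩, h0, ?_⟩
    intro j
    exact hw1 j (w i) ⟨hi j, (hw i).2⟩

theorem seg_vol (u : E3') :
    (volume (Q + segment ℝ (0 : E3') u)).toReal ≤ 8 + 4 * ∑ i, |u i| := by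
  obtain ⟨σ, hσ⟩ := seg_sub u
  have h : volume (Q + segment ℝ (0 : E3') u) ≤ ENNReal.ofReal (8 + 4 * ∑ i, |u i|) := by
    calc volume (Q + segment ℝ (0 : E3') u) ≤ volume (Q ∪ ⋃ i, T u i (σ i)) := measure_mono hσ
      _ ≤ volume Q + ∑ i, volume (T u i (σ i)) := by
        refine (measure_union_le _ _).trans ?_
        gcongr
        exact measure_iUnion_fintype_le _ _
      _ ≤ ENNReal.ofReal 8 + ∑ i, ENNReal.ofReal (4 * |u i|) := by
        gcongr with i
        · rw [Q_vol]; norm_num
        · exact T_vol u i (σ i)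
      _ = ENNReal.ofReal (8 + 4 * ∑ i, |u i|) := by
        rw [← ENNReal.ofReal_sum_of_nonneg (fun i _ => by positivity),
          ← ENNReal.ofReal_add (by norm_num) (by positivity), Finset.mul_sum]
  have h2 := ENNReal.toReal_mono ENNReal.ofReal_ne_top h
  rwa [ENNReal.toReal_ofReal (by positivity)] at h2

end Run7.h793.Iso
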