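import Pool.Agent.Run7.h793.Iso.Fib

/-!
Volumes of neighbourhoods of planar convex sets in space.
-/

namespace Run7.h793.Iso

open MeasureTheory Set
open scoped ENNReal Pointwise

/-- disc -/
def Dc (r : ℝ) : Set P2 := {y | y 0 ^ 2 + y 1 ^ 2 ≤ r ^ 2}

/-- neighbourhood in the plane -/
def Np (P : Set P2) (r : ℝ) : Set P2 := {y | ∃ q ∈ P, (y 0 - q 0) ^ 2 + (y 1 - q 1) ^ 2 ≤ r ^ 2}

/-- neighbourhood in space -/
def Ns (P : Set P2) (t : ℝ) : Set (ℝ × P2) :=
  {p | ∃ q ∈ P, p.1 ^ 2 + ((p.2 0 - q 0) ^ 2 + (p.2 1 - q 1) ^ 2) ≤ t ^ 2}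

theorem Np_sub {P : Set P2} (hc : Convex ℝ P) {ρ r : ℝ} (hρ : 0 < ρ) (hr : 0 ≤ r)
    (hD : Dc ρ ⊆ P) : Np P r ⊆ (1 + r / ρ) • P := by
  rintro y ⟨q, hq, h⟩
  rw [hc.add_smul zero_le_one (div_nonneg hr hρ.le), one_smul]
  rcases hr.eq_or_lt with h0 | h0
  · have e0 : y = q := by
      rw [← h0] at h
      have h1 := sq_nonneg (y 0 - q 0)
      have h2 := sq_nonneg (y 1 - q 1)
      have h3 : (y 0 - q 0) ^ 2 = 0 := by nlinarith
      have h4 : (y 1 - q 1) ^ 2 = 0 := by nlinarith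
      ext i
      fin_cases i
      · have := pow_eq_zero_iff (two_ne_zero) |>.mp h3
        simpa using sub_eq_zero.mp this
      · have := pow_eq_zero_iff (two_ne_zero) |>.mp h4
        simpa using sub_eq_zero.mp this
    rw [e0]
    refine mem_add.mpr ⟨q, hq, 0, ?_, by simp⟩
    exact ⟨0, hD (by simp [Dc]; positivity), by simp⟩
  · refine mem_add.mpr ⟨q, hq, y - q, ?_, by abel⟩
    refine ⟨(ρ / r) • (y - q), hD ?_, ?_⟩
    · simp only [Dc, mem_setOf_eq, Pi.smul_apply, Pi.sub_apply, smul_eq_mul]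
      have e : (ρ / r * (y 0 - q 0)) ^ 2 + (ρ / r * (y 1 - q 1)) ^ 2
        = (ρ / r) ^ 2 * ((y 0 - q 0) ^ 2 + (y 1 - q 1) ^ 2) := by ring
      rw [e]
      calc (ρ / r) ^ 2 * ((y 0 - q 0) ^ 2 + (y 1 - q 1) ^ 2) ≤ (ρ / r) ^ 2 * r ^ 2 := by gcongr
        _ = ρ ^ 2 := by field_simp
    · simp only
      rw [smul_smul]
      have : r / ρ * (ρ / r) = 1 := by field_simp
      rw [this, one_smul]

theorem sub_Np {P : Set P2} {R r : ℝ} (hR : 0 < R) (hr : 0 ≤ r)
    (hD : P ⊆ Dc R) : (1 + r / R) • P ⊆ Np P r := by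
  rintro y ⟨q, hq, rfl⟩
  refine ⟨q, hq, ?_⟩
  simp only [Pi.smul_apply, smul_eq_mul]
  have h := hD hq
  simp only [Dc, mem_setOf_eq] at h
  have e : ((1 + r / R) * q 0 - q 0) ^ 2 + ((1 + r / R) * q 1 - q 1) ^ 2
    = (r / R) ^ 2 * (q 0 ^ 2 + q 1 ^ 2) := by ring
  rw [e]
  calc (r / R) ^ 2 * (q 0 ^ 2 + q 1 ^ 2) ≤ (r / R) ^ 2 * R ^ 2 := by gcongr
    _ = r ^ 2 := by field_simp

theorem vol_smul2 (P : Set P2) (c : ℝ) :
    volume (c • P) = ENNReal.ofReal (c ^ 2) * volume P := by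
  rw [Measure.addHaar_smul]
  simp

theorem slice_eq {P : Set P2} {t h : ℝ} (ht : 0 ≤ t) :
    Prod.mk h ⁻¹' (Ns P t) = if h ∈ Icc (-t) t then Np P (√(t ^ 2 - h ^ 2)) else ∅ := by
  split_ifs with hh
  · have hn : 0 ≤ t ^ 2 - h ^ 2 := by
      have := hh.1
      have := hh.2
      nlinarith
    ext y
    simp only [Ns, Np, mem_preimage, mem_setOf_eq, Real.sq_sqrt hn]
    constructor
    · rintro ⟨q, hq, h1⟩; exact ⟨q, hq, by linarith⟩
    · rintro ⟨q, hq, h1⟩; exact ⟨q, hq, by linarith⟩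
  · ext y
    simp only [Ns, mem_preimage, mem_setOf_eq, mem_empty_iff_false, iff_false]
    rintro ⟨q, hq, h1⟩
    apply hh
    have h2 := sq_nonneg (y 0 - q 0)
    have h3 := sq_nonneg (y 1 - q 1)
    exact abs_le.mp (abs_le_of_sq_le_sq (by linarith) ht)

theorem Ns_compact {P : Set P2} (hP : IsCompact P) (t : ℝ) : IsCompact (Ns P t) := by
  have hB : IsCompact {p : ℝ × P2 | p.1 ^ 2 + (p.2 0 ^ 2 + p.2 1 ^ 2) ≤ t ^ 2} := by
    apply Metric.isCompact_of_isClosed_isBounded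
    · exact isClosed_le (by fun_prop) (by fun_prop)
    · apply (Metric.isBounded_closedBall (x := (0 : ℝ × P2)) (r := |t|)).subset
      intro p hp
      have hp' : p.1 ^ 2 + (p.2 0 ^ 2 + p.2 1 ^ 2) ≤ t ^ 2 := hp
      have h1 := sq_nonneg p.1
      have h2 := sq_nonneg (p.2 0)
      have h3 := sq_nonneg (p.2 1)
      rw [mem_closedBall_zero_iff, Prod.norm_def, max_le_iff]
      constructor
      · exact sq_le_sq.mp (by linarith)
      · rw [pi_norm_le_iff_of_nonneg (abs_nonneg t)]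
        intro i
        fin_cases i
        · exact sq_le_sq.mp (by simp; linarith)
        · exact sq_le_sq.mp (by simp; linarith)
  have : Ns P t = (fun z : (ℝ × P2) × P2 => (z.1.1, z.1.2 + z.2)) ''
      ({p : ℝ × P2 | p.1 ^ 2 + (p.2 0 ^ 2 + p.2 1 ^ 2) ≤ t ^ 2} ×ˢ P) := by
    ext p
    constructor
    · rintro ⟨q, hq, h⟩
      refine ⟨((p.1, p.2 - q), q), ⟨by simpa using h, hq⟩, by ext <;> simp⟩
    · rintro ⟨⟨b, q⟩, ⟨hb, hq⟩, rfl⟩
      exact ⟨q, hq, by simpa using hb⟩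
  rw [this]
  exact (hB.prod hP).image (by fun_prop)

theorem volN_eq {P : Set P2} (hP : IsCompact P) {t : ℝ} (ht : 0 ≤ t) :
    volume (Ns P t) = ∫⁻ h in Icc (-t) t, volume (Np P (√(t ^ 2 - h ^ 2))) := by
  rw [Measure.volume_eq_prod, Measure.prod_apply (Ns_compact hP t).measurableSet,
    ← lintegral_indicator measurableSet_Icc]
  congr 1
  ext h
  rw [slice_eq ht]
  by_cases hh : h ∈ Icc (-t) t
  · rw [if_pos hh, indicator_of_mem hh]
  · rw [if_neg hh, indicator_of_notMem hh, measure_empty]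

theorem cont_fun (t ρ : ℝ) : Continuous (fun h : ℝ => (1 + √(t ^ 2 - h ^ 2) / ρ) ^ 2) := by
  fun_prop

theorem volN_le {P : Set P2} (hP : IsCompact P) (hc : Convex ℝ P) {ρ t : ℝ} (hρ : 0 < ρ)
    (ht : 0 ≤ t) (hD : Dc ρ ⊆ P) :
    volume (Ns P t) ≤ ENNReal.ofReal (∫ h in (-t)..t, (1 + √(t ^ 2 - h ^ 2) / ρ) ^ 2)
      * volume P := by
  rw [volN_eq hP ht, intervalIntegral.integral_of_le (by linarith),
    ← integral_Icc_eq_integral_Ioc, ofReal_integral_eq_lintegral_ofReal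
    ((cont_fun t ρ).integrableOn_Icc) (Filter.Eventually.of_forall (fun h => by positivity)),
    ← lintegral_mul_const _ (by fun_prop)]
  apply lintegral_mono
  intro h
  beta_reduce
  rw [← vol_smul2]
  exact measure_mono (Np_sub hc hρ (Real.sqrt_nonneg _) hD)

theorem le_volN {P : Set P2} (hP : IsCompact P) {R t : ℝ} (hR : 0 < R)
    (ht : 0 ≤ t) (hD : P ⊆ Dc R) :
    ENNReal.ofReal (∫ h in (-t)..t, (1 + √(t ^ 2 - h ^ 2) / R) ^ 2)
      * volume P ≤ volume (Ns P t) := by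
  rw [volN_eq hP ht, intervalIntegral.integral_of_le (by linarith),
    ← integral_Icc_eq_integral_Ioc, ofReal_integral_eq_lintegral_ofReal
    ((cont_fun t R).integrableOn_Icc) (Filter.Eventually.of_forall (fun h => by positivity)),
    ← lintegral_mul_const _ (by fun_prop)]
  apply lintegral_mono
  intro h
  beta_reduce
  rw [← vol_smul2]
  exact measure_mono (sub_Np hR (Real.sqrt_nonneg _) hD)

theorem int_sqrt (t : ℝ) (ht : 0 < t) : ∫ h in (-t)..t, √(t ^ 2 - h ^ 2) = Real.pi * t ^ 2 / 2 := by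
  have h1 := intervalIntegral.mul_integral_comp_mul_left (f := fun h => √(t ^ 2 - h ^ 2))
    (a := -1) (b := 1) t
  rw [mul_neg_one, mul_one] at h1
  rw [← h1]
  have h2 : (fun x => √(t ^ 2 - (t * x) ^ 2)) = fun x => t * √(1 - x ^ 2) := by
    ext x
    have : t ^ 2 - (t * x) ^ 2 = t ^ 2 * (1 - x ^ 2) := by ring
    rw [this, Real.sqrt_mul (by positivity), Real.sqrt_sq ht.le]
  simp only [h2]
  rw [intervalIntegral.integral_const_mul, integral_sqrt_one_sub_sq]
  ring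

theorem int_val (t ρ : ℝ) (ht : 0 < t) (hρ : 0 < ρ) :
    ∫ h in (-t)..t, (1 + √(t ^ 2 - h ^ 2) / ρ) ^ 2
      = 2 * t + Real.pi * t ^ 2 / ρ + (4 / 3) * t ^ 3 / ρ ^ 2 := by
  have e : ∫ h in (-t)..t, (1 + √(t ^ 2 - h ^ 2) / ρ) ^ 2
      = ∫ h in (-t)..t, (1 + (2 / ρ) * √(t ^ 2 - h ^ 2) + (t ^ 2 - h ^ 2) / ρ ^ 2) := by
    apply intervalIntegral.integral_congr
    intro h hh
    rw [uIcc_of_le (by linarith)] at hh
    have hn : 0 ≤ t ^ 2 - h ^ 2 := by
      have := hh.1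
      have := hh.2
      nlinarith
    have := Real.sq_sqrt hn
    simp only
    field_simp
    linear_combination this
  rw [e, intervalIntegral.integral_add, intervalIntegral.integral_add,
    intervalIntegral.integral_const_mul, int_sqrt t ht]
  · have : ∫ h in (-t)..t, (t ^ 2 - h ^ 2) / ρ ^ 2 = (4 / 3) * t ^ 3 / ρ ^ 2 := by
      rw [intervalIntegral.integral_div, intervalIntegral.integral_sub]
      · simp
        ring
      · exact (continuous_const).intervalIntegrable _ _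
      · exact (continuous_pow 2).intervalIntegrable _ _
    rw [this]
    simp
    ring
  · exact (continuous_const).intervalIntegrable _ _
  · apply Continuous.intervalIntegrable; fun_prop
  · apply Continuous.intervalIntegrable; fun_prop
  · apply Continuous.intervalIntegrable; fun_prop

end Run7.h793.Iso
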