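import Pool.Agent.Run7.h793.Iso.Lim

/-!
Coordinates adapted to a direction.
-/

namespace Run7.h793.Iso

open MeasureTheory Set Filter Topology
open scoped ENNReal Pointwise

/-- space -/
abbrev E3 := EuclideanSpace ℝ (Fin 3)

/-- the coordinate map as a measurable equivalence -/
noncomputable def PhiM (b : OrthonormalBasis (Fin 3) ℝ E3) : E3 ≃ᵐ ℝ × P2 :=
  b.measurableEquiv.trans ((MeasurableEquiv.toLp 2 (Fin 3 → ℝ)).symm.trans
    (MeasurableEquiv.piFinSuccAbove (fun _ : Fin 3 => ℝ) 0))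

theorem PhiM_mp (b : OrthonormalBasis (Fin 3) ℝ E3) : MeasurePreserving (PhiM b) := by
  have h1 := b.measurePreserving_measurableEquiv
  have h2 := EuclideanSpace.volume_preserving_symm_measurableEquiv_toLp (Fin 3)
  have h3 := volume_preserving_piFinSuccAbove (fun _ : Fin 3 => ℝ) 0
  exact h3.comp (h2.comp h1)

theorem PhiM_apply (b : OrthonormalBasis (Fin 3) ℝ E3) (x : E3) :
    PhiM b x = (b.repr x 0, fun j => b.repr x j.succ) := rfl

/-- the coordinate map -/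
noncomputable def Phi (b : OrthonormalBasis (Fin 3) ℝ E3) : E3 ≃ₗ[ℝ] ℝ × P2 where
  toFun := PhiM b
  map_add' x y := by
    simp only [PhiM_apply, map_add]
    rfl
  map_smul' c x := by
    simp only [PhiM_apply, map_smul]
    rfl
  invFun := (PhiM b).symm
  left_inv := (PhiM b).left_inv
  right_inv := (PhiM b).right_inv

theorem Phi_vol (b : OrthonormalBasis (Fin 3) ℝ E3) (A : Set E3) :
    volume (Phi b '' A) = volume A := by
  have h := (PhiM_mp b).measure_preimage_equiv (PhiM b '' A)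
  rw [preimage_image_eq _ (PhiM b).injective] at h
  exact h.symm

theorem Phi_norm (b : OrthonormalBasis (Fin 3) ℝ E3) (x : E3) :
    ‖x‖ ^ 2 = (Phi b x).1 ^ 2 + ((Phi b x).2 0 ^ 2 + (Phi b x).2 1 ^ 2) := by
  have h : ‖x‖ = ‖b.repr x‖ := (b.repr.norm_map x).symm
  rw [h, EuclideanSpace.norm_sq_eq, Fin.sum_univ_three]
  simp only [Real.norm_eq_abs, sq_abs]
  change _ = (b.repr x 0) ^ 2 + ((b.repr x 1) ^ 2 + (b.repr x 2) ^ 2)
  ring

theorem Phi_fst (b : OrthonormalBasis (Fin 3) ℝ E3) (x : E3) :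
    (Phi b x).1 = inner ℝ (b 0) x := b.repr_apply_apply x 0

theorem Phi_b0 (b : OrthonormalBasis (Fin 3) ℝ E3) : Phi b (b 0) = (1, 0) := by
  have h : b.repr (b 0) = EuclideanSpace.single 0 1 := b.repr_self 0
  change ((b.repr (b 0) 0, fun j : Fin 2 => b.repr (b 0) j.succ) : ℝ × P2) = (1, 0)
  rw [h]
  ext
  · simp
  · simp

theorem exists_basis (u : E3) (hu : ‖u‖ = 1) :
    ∃ b : OrthonormalBasis (Fin 3) ℝ E3, b 0 = u := by
  have hv : Orthonormal ℝ (({0} : Set (Fin 3)).domRestrict (fun _ => u)) := by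
    constructor
    · intro i; exact hu
    · intro i j hij
      exfalso
      apply hij
      have hi := i.2
      have hj := j.2
      ext
      rw [mem_singleton_iff] at hi hj
      rw [hi, hj]
  obtain ⟨b, hb⟩ := hv.exists_orthonormalBasis_extension_of_card_eq (by simp)
  exact ⟨b, hb 0 rfl⟩

variable (b : OrthonormalBasis (Fin 3) ℝ E3) (K : Set E3)

theorem Phi_cont : Continuous (Phi b) := (Phi b).toLinearMap.continuous_of_finiteDimensional

theorem Phi_seg : Phi b '' (K + segment ℝ (0 : E3) (b 0)) = sh (Phi b '' K) := by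
  ext p
  constructor
  · rintro ⟨z, hz, rfl⟩
    obtain ⟨x, hx, y, hy, rfl⟩ := mem_add.mp hz
    rw [segment_eq_image] at hy
    obtain ⟨s, hs, rfl⟩ := hy
    refine ⟨s, hs, x, hx, ?_⟩
    simp only [smul_zero, zero_add, map_add, map_smul, Phi_b0]
    ext <;> simp
  · rintro ⟨s, hs, x, hx, h⟩
    refine ⟨x + s • b 0, mem_add.mpr ⟨x, hx, s • b 0, ?_, rfl⟩, ?_⟩
    · rw [segment_eq_image]
      exact ⟨s, hs, by simp⟩
    · rw [map_add, map_smul, Phi_b0, h]
      ext <;> simp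

theorem Phi_proj {t : ℝ} (ht : 0 ≤ t) :
    Phi b '' ((fun x : E3 => x - (inner ℝ (b 0) x) • (b 0)) '' K + Metric.closedBall (0 : E3) t)
      = Ns (Prod.snd '' (Phi b '' K)) t := by
  have hpr : ∀ x : E3, Phi b (x - (inner ℝ (b 0) x) • (b 0)) = (0, (Phi b x).2) := by
    intro x
    rw [map_sub, map_smul, Phi_b0, ← Phi_fst]
    ext <;> simp
  have hball : ∀ y : E3, y ∈ Metric.closedBall (0 : E3) t ↔
      (Phi b y).1 ^ 2 + ((Phi b y).2 0 ^ 2 + (Phi b y).2 1 ^ 2) ≤ t ^ 2 := by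
    intro y
    rw [mem_closedBall_zero_iff, ← Phi_norm, sq_le_sq₀ (norm_nonneg _) ht]
  ext p
  constructor
  · rintro ⟨z, hz, rfl⟩
    obtain ⟨x', ⟨x, hx, rfl⟩, y, hy, rfl⟩ := mem_add.mp hz
    rw [hball] at hy
    refine ⟨(Phi b x).2, ⟨Phi b x, ⟨x, hx, rfl⟩, rfl⟩, ?_⟩
    beta_reduce
    rw [map_add, hpr]
    simpa using hy
  · rintro ⟨q, ⟨_, ⟨x, hx, rfl⟩, rfl⟩, h⟩
    refine ⟨(x - (inner ℝ (b 0) x) • (b 0)) + (Phi b).symm (p - (0, (Phi b x).2)),
      mem_add.mpr ⟨_, ⟨x, hx, rfl⟩, _, ?_, rfl⟩, ?_⟩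
    · rw [hball, LinearEquiv.apply_symm_apply]
      simpa using h
    · rw [map_add, hpr, LinearEquiv.apply_symm_apply]
      simp

/-- the main estimate -/
theorem main_est {u : E3} (hu : ‖u‖ = 1) (hK : IsCompact K) (hc : Convex ℝ K) {ρ R L : ℝ}
    (hρ : 0 < ρ) (hR : 0 < R) (hin : ∀ v : E3, ‖v‖ ^ 2 ≤ ρ ^ 2 → ∃ s : ℝ, v + s • u ∈ K)
    (hout : ∀ x ∈ K, ‖x‖ ≤ R)
    (hL : Filter.Tendsto (fun t : ℝ =>
        ((volume ((fun x : EuclideanSpace ℝ (Fin 3) => x - (inner ℝ u x) • u) '' K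
              + Metric.closedBall (0 : EuclideanSpace ℝ (Fin 3)) t)).toReal
          - 2 * t * ((volume (K + segment ℝ (0 : EuclideanSpace ℝ (Fin 3)) u)).toReal
              - (volume K).toReal)) / (Real.pi * t ^ 2))
        (nhdsWithin 0 (Set.Ioi 0)) (nhds L)) :
    0 < (volume (K + segment ℝ (0 : EuclideanSpace ℝ (Fin 3)) u)).toReal - (volume K).toReal ∧
    Real.pi * ρ ^ 2 / ((volume (K + segment ℝ (0 : EuclideanSpace ℝ (Fin 3)) u)).toReal
              - (volume K).toReal) ≤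
    Real.pi * ((volume (K + segment ℝ (0 : EuclideanSpace ℝ (Fin 3)) u)).toReal
              - (volume K).toReal) / L ^ 2 := by
  obtain ⟨b, rfl⟩ := exists_basis u hu
  have hG : IsCompact (Phi b '' K) := hK.image (Phi_cont b)
  have hGc : Convex ℝ (Phi b '' K) := hc.linear_image (Phi b).toLinearMap
  have hP : IsCompact (Prod.snd '' (Phi b '' K)) := hG.image continuous_snd
  have hPc : Convex ℝ (Prod.snd '' (Phi b '' K)) :=
    hGc.linear_image (LinearMap.snd ℝ ℝ P2)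
  have hvol : (volume (K + segment ℝ (0 : E3) (b 0))).toReal - (volume K).toReal
      = (volume (Prod.snd '' (Phi b '' K))).toReal := by
    rw [← Phi_vol b (K + segment ℝ (0 : E3) (b 0)), Phi_seg, vol_sh hG hGc, Phi_vol,
      ENNReal.toReal_add hK.measure_lt_top.ne hP.measure_lt_top.ne]
    ring
  have hDin : Dc ρ ⊆ Prod.snd '' (Phi b '' K) := by
    intro y hy
    have hy' : y 0 ^ 2 + y 1 ^ 2 ≤ ρ ^ 2 := hy
    obtain ⟨s, hs⟩ := hin ((Phi b).symm (0, y)) (by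
      rw [Phi_norm b, LinearEquiv.apply_symm_apply]
      simpa using hy')
    refine ⟨_, ⟨_, hs, rfl⟩, ?_⟩
    rw [map_add, map_smul, Phi_b0, LinearEquiv.apply_symm_apply]
    simp
  have hDout : Prod.snd '' (Phi b '' K) ⊆ Dc R := by
    rintro _ ⟨_, ⟨x, hx, rfl⟩, rfl⟩
    have h1 := hout x hx
    have h2 := Phi_norm b x
    have h3 : ‖x‖ ^ 2 ≤ R ^ 2 := by gcongr
    change (Phi b x).2 0 ^ 2 + (Phi b x).2 1 ^ 2 ≤ R ^ 2
    have := sq_nonneg (Phi b x).1
    linarith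
  have hpos : 0 < (volume (Prod.snd '' (Phi b '' K))).toReal := by
    refine ENNReal.toReal_pos ?_ hP.measure_lt_top.ne
    have hop : IsOpen {y : P2 | y 0 ^ 2 + y 1 ^ 2 < ρ ^ 2} :=
      isOpen_lt (by fun_prop) (by fun_prop)
    have h1 : 0 < volume {y : P2 | y 0 ^ 2 + y 1 ^ 2 < ρ ^ 2} :=
      hop.measure_pos volume ⟨0, by simp; positivity⟩
    refine (h1.trans_le (measure_mono ?_)).ne'
    intro y hy
    have hy' : y 0 ^ 2 + y 1 ^ 2 < ρ ^ 2 := hy
    exact hDin (show y 0 ^ 2 + y 1 ^ 2 ≤ ρ ^ 2 from hy'.le)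
  rw [hvol]
  refine ⟨hpos, lim_bound hP hPc hρ hR hDin hDout hpos ?_⟩
  refine hL.congr' ?_
  filter_upwards [self_mem_nhdsWithin] with t ht
  rw [hvol, ← Phi_proj b K (le_of_lt ht), Phi_vol]

end Run7.h793.Iso
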